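import Pool.Agent.L0h83.BR.M1
import Pool.Agent.L0h83.BR.M2
import Pool.Agent.L0h83.BR.M3
import Pool.Agent.L0h83.BR.N1
import Pool.Agent.L0h83.BR.N2
import Pool.Agent.L0h83.BR.N3
import Pool.Agent.L0h83.BR.R2
import Pool.Agent.L0h83.BR.L1
import Pool.Agent.L0h83.BR.L2
import Pool.Agent.L0h83.BR.C1
import Pool.Agent.L0h83.BR.C2
import Pool.Agent.L0h83.BR.F1
import Pool.Agent.L0h83.BR.F2
import Pool.Agent.L0h83.BR.F3

/-!
# Converse regularity for Bergman space extremal functions (Q1 of MP_efd5b3_an)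

For every `1 < p < ∞`, with `q = p/(p-1)`, every nonzero `k ∈ A^q` with extremal function `F`, and
every `1 < q₁ < ∞`: if `k ∈ A^{q₁}` then `F ∈ A^{(p-1)q₁}`.
-/

set_option autoImplicit false

namespace Pool.Agent.Results.MP_efd5b3_an.BergmanRegularity

open Complex Metric Set Filter Topology MeasureTheory ComplexConjugate

/-- area measure on the unit disc, normalised to have total mass one -/
noncomputable def σ : Measure ℂ := ENNReal.ofReal (1 / Real.pi) • volume.restrict (ball (0:ℂ) 1)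

/-- the Bergman space `A^r`: `f` is analytic in the disc and `∫ |f|^r dσ < ∞` -/
def InBergman (r : ℝ) (f : ℂ → ℂ) : Prop :=
  DifferentiableOn ℂ f (ball 0 1) ∧ Integrable (fun z => ‖f z‖ ^ r) σ

/-- the norm of `A^r` -/
noncomputable def bergmanNorm (r : ℝ) (f : ℂ → ℂ) : ℝ := (∫ z, ‖f z‖ ^ r ∂σ) ^ (1 / r)

/-- the functional `φ(f) = ∫ f k̄ dσ` with kernel `k` -/
noncomputable def functional (k f : ℂ → ℂ) : ℂ := ∫ z, f z * conj (k z) ∂σ

/-- `F` is the extremal function for `k`: `F ∈ A^p` has norm one and maximises `Re φ` over all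
`g ∈ A^p` of norm one -/
def IsExtremal (p : ℝ) (k F : ℂ → ℂ) : Prop :=
  InBergman p F ∧ bergmanNorm p F = 1 ∧
    ∀ g, InBergman p g → bergmanNorm p g = 1 → (functional k g).re ≤ (functional k F).re

/-- **Affirmative answer to Q1.** For every `1 < p < ∞` with conjugate exponent `q`, every nonzero
kernel `k ∈ A^q` with `A^p` extremal function `F`, and every `1 < q₁ < ∞`: if `k ∈ A^{q₁}` then
`F ∈ A^{(p-1)q₁}`. -/
theorem result : ∀ p q : ℝ, 1 < p → q = p / (p - 1) → ∀ k F : ℂ → ℂ, InBergman q k →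
    (∃ z ∈ ball (0:ℂ) 1, k z ≠ 0) → IsExtremal p k F → ∀ q₁ : ℝ, 1 < q₁ → InBergman q₁ k →
      InBergman ((p - 1) * q₁) F := by
  intro p q hp hq k F hk hk0 hF q₁ hq₁ hk₁
  have hpq : p.HolderConjugate q := by
    rw [hq]; exact Real.HolderConjugate.conjExponent hp
  open Pool.Agent.L0h83.BR in
  have hLE : LE := m_LE (m_LE1 m_R1 m_G5) m_G3 m_G4
  open Pool.Agent.L0h83.BR in
  have hDec : DecT := m_DecT hLE (m_CMP m_P1 m_P3) m_P2 m_G4 m_N1
  open Pool.Agent.L0h83.BR in
  have hUE : UE := m_UE hDec m_G1 m_G2 m_G4 m_N2a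
  open Pool.Agent.L0h83.BR in
  have hGE : GE := m_GE hUE m_N1 m_N2a m_P1 m_P4
  open Pool.Agent.L0h83.BR in
  have hMain : Main := m_Main hGE m_N3
  exact hMain p q q₁ hpq hq₁ k F hk hk0 hF hk₁

end Pool.Agent.Results.MP_efd5b3_an.BergmanRegularity
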